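import Pool.Agent.H58.JU.Targets

/-! MP_6a7a6f_gt, jun_modules, row RET: the left homotopy inverse. -/

set_option autoImplicit false

namespace Pool.Agent.H35.JU

open Pool.Agent.H58.JU Pool.Agent.H59 Pool.Agent.H48.FR Pool.Agent.H58.FL
open scoped RealInnerProductSpace Quaternion unitInterval

theorem dist_kur {M : Type} [MetricSpace M] [BoundedSpace M] (m m' : M) :
    dist (kur M m) (kur M m') = dist m m' := by
  refine le_antisymm (dist_kur_le m m') ?_
  have h1 := lp.norm_apply_le_norm (p := ⊤) (by simp) (kur M m - kur M m') m'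
  rw [lp.coeFn_sub, Pi.sub_apply, kur_apply, kur_apply, dist_self, sub_zero, Real.norm_eq_abs,
    abs_of_nonneg dist_nonneg] at h1
  rw [dist_eq_norm (kur M m)]
  exact h1

theorem continuous_ov {M Y : Type} [MetricSpace M] [TopologicalSpace Y] {a b : Y → M}
    (ha : Continuous a) (hb : Continuous b) : Continuous fun y => ov (a y) (b y) := by
  unfold ov
  exact (Real.continuous_cos.comp (ha.dist hb)).pow 2

theorem ov_le_self {M : Type} [MetricSpace M] (c m : M) : ov c m ≤ ov m m := by
  unfold ov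
  rw [dist_self, Real.cos_zero, one_pow]
  have h1 := Real.cos_le_one (dist c m)
  have h2 := Real.neg_one_le_cos (dist c m)
  nlinarith

theorem pf_RET (hARG : T_ARG) (hPHI : T_PHI) : T_RET := by
  intro M _ _ _ _ ρ hUM _ ε hε hερ
  obtain ⟨δ, hδ⟩ : ∃ δ : ℝ, δ = (ρ - 2 * ε) / 4 := ⟨_, rfl⟩
  have hδ0 : 0 < δ := by rw [hδ]; linarith
  have hρ : ε + δ + (ε + δ) < ρ := by rw [hδ]; linarith
  obtain ⟨N, x, φ, hφ, hw, hd⟩ := hPHI M ε δ hε hδ0
  have hpair : ∀ (f : UE M ε) (i j : Fin N), 0 < φ f i → 0 < φ f j → dist (x i) (x j) < ρ := by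
    intro f i j hi hj
    rw [← dist_kur]
    have h1 := dist_triangle_left (kur M (x i)) (kur M (x j)) f.1
    have h2 := hd f i hi
    have h3 := hd f j hj
    linarith
  have hone : ∀ (m : M) (i : Fin N), 0 < φ (kc M ε hε m) i → dist m (x i) < ρ := by
    intro m i hi
    rw [← dist_kur]
    have h2 := hd (kc M ε hε m) i hi
    have h3 : dist (kur M m) (kur M (x i)) < ε + δ := h2
    linarith
  have hφi : ∀ i, Continuous fun f : UE M ε => φ f i := fun i => (continuous_apply i).comp hφ
  -- the retraction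
  obtain ⟨r, hr⟩ := hARG (UE M ε) M (fun f c => Fs (φ f) x c) (by
    show Continuous fun q : UE M ε × M => ∑ i, φ q.1 i * ov q.2 (x i)
    exact continuous_finsetSum _ fun i _ =>
      ((hφi i).comp continuous_fst).mul (continuous_ov continuous_snd continuous_const))
    (fun f c c' hc hc' => hUM N (φ f) x (hw f) (hpair f) c c' hc hc')
  -- the homotopy
  have hG : ∀ (s : I) (m c : M), (s : ℝ) * ov c m + (1 - (s : ℝ)) * Fs (φ (kc M ε hε m)) x c =
      Fs (N := N + 1) (Fin.cons (s : ℝ) fun i => (1 - (s : ℝ)) * φ (kc M ε hε m) i)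
        (Fin.cons m x) c := by
    intro s m c
    unfold Fs
    rw [Fin.sum_univ_succ, Finset.mul_sum]
    simp only [Fin.cons_zero, Fin.cons_succ]
    congr 1
    exact Finset.sum_congr rfl fun i _ => (mul_assoc _ _ _).symm
  have huniq : ∀ (p : I × M) (c c' : M),
      IsMx (fun c => (p.1 : ℝ) * ov c p.2 + (1 - (p.1 : ℝ)) * Fs (φ (kc M ε hε p.2)) x c) c →
      IsMx (fun c => (p.1 : ℝ) * ov c p.2 + (1 - (p.1 : ℝ)) * Fs (φ (kc M ε hε p.2)) x c) c' →
      c = c' := by
    rintro ⟨s, m⟩ c c' hc hc'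
    simp only [hG] at hc hc'
    have hs0 : 0 ≤ (s : ℝ) := s.2.1
    have hs1 : 0 ≤ 1 - (s : ℝ) := by linarith [s.2.2]
    obtain ⟨w1, w2⟩ := hw (kc M ε hε m)
    have hpos : ∀ i, 0 < (1 - (s : ℝ)) * φ (kc M ε hε m) i → 0 < φ (kc M ε hε m) i := by
      intro i hi
      rcases (w1 i).lt_or_eq with h | h
      · exact h
      · rw [← h, mul_zero] at hi
        exact absurd hi (lt_irrefl _)
    have hρ0 : 0 < ρ := by linarith
    refine hUM (N + 1) _ _ ⟨?_, ?_⟩ ?_ c c' hc hc'
    · intro i
      refine Fin.cases ?_ (fun j => ?_) i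
      · rw [Fin.cons_zero]
        exact hs0
      · rw [Fin.cons_succ]
        exact mul_nonneg hs1 (w1 j)
    · rw [Fin.sum_univ_succ]
      simp only [Fin.cons_zero, Fin.cons_succ]
      rw [← Finset.mul_sum, w2]
      ring
    · intro i j
      refine Fin.cases ?_ (fun i => ?_) i <;> refine Fin.cases ?_ (fun j => ?_) j
      · intro _ _
        rw [dist_self]
        exact hρ0
      · intro _ hj
        rw [Fin.cons_succ] at hj
        rw [Fin.cons_zero, Fin.cons_succ]
        exact hone m j (hpos j hj)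
      · intro hi _
        rw [Fin.cons_succ] at hi
        rw [Fin.cons_zero, Fin.cons_succ, dist_comm]
        exact hone m i (hpos i hi)
      · intro hi hj
        rw [Fin.cons_succ] at hi hj
        rw [Fin.cons_succ, Fin.cons_succ]
        exact hpair _ i j (hpos i hi) (hpos j hj)
  obtain ⟨H, hH⟩ := hARG (I × M) M
    (fun p c => (p.1 : ℝ) * ov c p.2 + (1 - (p.1 : ℝ)) * Fs (φ (kc M ε hε p.2)) x c) (by
      have c1 : Continuous fun q : (I × M) × M => (q.1.1 : ℝ) :=
        continuous_subtype_val.comp (continuous_fst.comp continuous_fst)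
      have c2 : Continuous fun q : (I × M) × M => q.1.2 := continuous_snd.comp continuous_fst
      refine (c1.mul (continuous_ov continuous_snd c2)).add ((continuous_const.sub c1).mul ?_)
      show Continuous fun q : (I × M) × M => ∑ i, φ (kc M ε hε q.1.2) i * ov q.2 (x i)
      exact continuous_finsetSum _ fun i _ =>
        ((hφi i).comp ((kc M ε hε).continuous.comp c2)).mul
          (continuous_ov continuous_snd continuous_const)) huniq
  refine ⟨r, ⟨⟨H, fun m => ?_, fun m => ?_⟩⟩⟩
  · refine huniq (0, m) _ _ (hH (0, m)) ?_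
    intro c
    have h1 := hr (kc M ε hε m) c
    simp only [Set.Icc.coe_zero, zero_mul, sub_zero, one_mul, zero_add]
    exact h1
  · refine huniq (1, m) _ _ (hH (1, m)) ?_
    intro c
    simp only [Set.Icc.coe_one, one_mul, sub_self, zero_mul, add_zero]
    exact ov_le_self c m

end Pool.Agent.H35.JU
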